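import Pool.Agent.helper52.FS.SpecD

/-!
# MP_07c750 (quantum unique ergodicity), PROJECT FS, row PRD: the product along the orbit
-/

open scoped MatrixGroups ContDiff Topology UpperHalfPlane ComplexConjugate
open UpperHalfPlane MeasureTheory Filter Set

set_option autoImplicit false

namespace Pool.Agent.FS

open Pool.Agent.RS
open Pool.Agent.MS (bq BB BA SF pf)
open Pool.Agent.EN (XG MG mkX mkM fl pr)

noncomputable section

theorem PRD_e2 : (2 : ℝ) ≤ Real.exp 1 := by
  have h := Real.add_one_le_exp (1 : ℝ)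
  linarith

theorem PRD_one (Γ : Subgroup SL(2, ℝ)) : SF Γ (fun _ => (1 : ℝ)) (fun _ => 0) (fun _ => 0) (fun _ => 0) :=
  ⟨⟨continuous_const, fun _ _ => rfl⟩, ⟨continuous_const, fun _ _ => rfl⟩, ⟨continuous_const, fun _ _ => rfl⟩, ⟨continuous_const, fun _ _ => rfl⟩,
    fun _ => hasDerivAt_const _ _, fun _ => hasDerivAt_const _ _, fun _ => hasDerivAt_const _ _⟩

theorem PRD_proof (hSFP : IR.SFP_stmt) : PRD_stmt := by
  intro Γ C χ χa χn χl n hC hχ h01 hn hl
  have hC0 : 0 ≤ C := by linarith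
  have key : ∀ n : ℕ, ∃ Ψa Ψn Ψl : SL(2, ℝ) → ℝ, SF Γ (fun g => ∏ i ∈ Finset.range n, χ (g * aM i)) Ψa Ψn Ψl ∧
      (∀ g, |Ψn g| ≤ C * (2 * (1 - Real.exp (-(n : ℝ))))) ∧ ∀ g, |Ψl g| ≤ C * Real.exp n := by
    intro n
    induction n with
    | zero =>
      refine ⟨fun _ => 0, fun _ => 0, fun _ => 0, ?_, ?_, ?_⟩
      · simpa only [Finset.range_zero, Finset.prod_empty] using PRD_one Γ
      · intro g; simp
      · intro g; simp only [abs_zero]; positivity
    | succ n ih =>
      obtain ⟨Ψa, Ψn, Ψl, hS, h1, h2⟩ := ih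
      have hT := (hSFP Γ χ χa χn χl hχ).2.2 (n : ℝ)
      have hP := (hSFP Γ _ Ψa Ψn Ψl hS).1 _ _ _ _ hT
      have hpr : ∀ g : SL(2, ℝ), |∏ i ∈ Finset.range n, χ (g * aM i)| ≤ 1 := by
        intro g
        rw [abs_of_nonneg (Finset.prod_nonneg fun i _ => (h01 _).1)]
        exact Finset.prod_le_one (fun i _ => (h01 _).1) (fun i _ => (h01 _).2)
      have hχ1 : ∀ g : SL(2, ℝ), |χ g| ≤ 1 := by
        intro g
        rw [abs_of_nonneg (h01 g).1]
        exact (h01 g).2
      have hN : ((n + 1 : ℕ) : ℝ) = (n : ℝ) + 1 := by push_cast; ring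
      refine ⟨fun g => Ψa g * χ (g * aM n) + (∏ i ∈ Finset.range n, χ (g * aM i)) * χa (g * aM n),
        fun g => Ψn g * χ (g * aM n) + (∏ i ∈ Finset.range n, χ (g * aM i)) * (Real.exp (-(n : ℝ)) * χn (g * aM n)),
        fun g => Ψl g * χ (g * aM n) + (∏ i ∈ Finset.range n, χ (g * aM i)) * (Real.exp (n : ℝ) * χl (g * aM n)), ?_, ?_, ?_⟩
      · have he : (fun g : SL(2, ℝ) => ∏ i ∈ Finset.range (n + 1), χ (g * aM i)) = fun g => (∏ i ∈ Finset.range n, χ (g * aM i)) * χ (g * aM n) := by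
          funext g
          rw [Finset.prod_range_succ]
        rw [he]
        exact hP
      · intro g
        refine (abs_add_le _ _).trans ?_
        rw [abs_mul, abs_mul, abs_mul, abs_of_pos (Real.exp_pos _)]
        have a1 : |Ψn g| * |χ (g * aM n)| ≤ C * (2 * (1 - Real.exp (-(n : ℝ)))) :=
          (mul_le_of_le_one_right (abs_nonneg _) (hχ1 _)).trans (h1 g)
        have a2 : |∏ i ∈ Finset.range n, χ (g * aM i)| * (Real.exp (-(n : ℝ)) * |χn (g * aM n)|) ≤ Real.exp (-(n : ℝ)) * C := by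
          refine (mul_le_of_le_one_left (by positivity) (hpr g)).trans ?_
          exact mul_le_mul_of_nonneg_left (hn _) (Real.exp_pos _).le
        have a3 : Real.exp (-(((n + 1 : ℕ) : ℝ))) * 2 ≤ Real.exp (-(n : ℝ)) := by
          have h3 : Real.exp (-(n : ℝ)) = Real.exp (-(((n + 1 : ℕ) : ℝ))) * Real.exp 1 := by
            rw [← Real.exp_add, hN]; congr 1; ring
          rw [h3]
          exact mul_le_mul_of_nonneg_left PRD_e2 (Real.exp_pos _).le
        nlinarith
      · intro g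
        refine (abs_add_le _ _).trans ?_
        rw [abs_mul, abs_mul, abs_mul, abs_of_pos (Real.exp_pos _)]
        have a1 : |Ψl g| * |χ (g * aM n)| ≤ C * Real.exp n :=
          (mul_le_of_le_one_right (abs_nonneg _) (hχ1 _)).trans (h2 g)
        have a2 : |∏ i ∈ Finset.range n, χ (g * aM i)| * (Real.exp (n : ℝ) * |χl (g * aM n)|) ≤ Real.exp (n : ℝ) * C := by
          refine (mul_le_of_le_one_left (by positivity) (hpr g)).trans ?_
          exact mul_le_mul_of_nonneg_left (hl _) (Real.exp_pos _).le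
        have a3 : Real.exp (n : ℝ) * 2 ≤ Real.exp (((n + 1 : ℕ) : ℝ)) := by
          rw [hN, Real.exp_add]
          exact mul_le_mul_of_nonneg_left PRD_e2 (Real.exp_pos _).le
        nlinarith
  obtain ⟨Ψa, Ψn, Ψl, hS, h1, h2⟩ := key n
  refine ⟨Ψa, Ψn, Ψl, hS, fun g => (h1 g).trans ?_, fun g => (h2 g).trans ?_⟩
  · have := Real.exp_pos (-(n : ℝ))
    nlinarith
  · have := Real.exp_pos (n : ℝ)
    nlinarith

end

end Pool.Agent.FS
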