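import Pool.Agent.helper87.FS.Spec

/-!
# FS, row KLG: killing the points of dimension one by new marks
-/

set_option autoImplicit false

namespace Pool.Agent.FS

open Polynomial Matrix Pool.Agent.helper42.NS

theorem KLG_smul {K : Type} [CommRing K] {t : ℕ} (b : Fin t → Bool) (c : K) (u : Fin t → K) :
    dotb b (c • u) = c * dotb b u := by
  unfold dotb
  rw [Finset.mul_sum]
  refine Finset.sum_congr rfl fun j _ => ?_
  split_ifs <;> simp

theorem KLG_pos (P : Pt) (t k : ℕ) (H : Matrix (Fin t) (Fin t) ℤ) (B : Fin k → Fin t → Bool)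
    (u : Fin t → KP P) (hu : u ∈ EM (KP P) (lamP P) H B) (hu0 : u ≠ 0) : crm P H B ≠ 0 := by
  haveI := P.isMaximal
  letI : Field (KP P) := Ideal.Quotient.field P.asIdeal
  have h3 : Module.finrank (KP P) (EM (KP P) (lamP P) H B) ≠ 0 := by
    haveI : Nontrivial (EM (KP P) (lamP P) H B) :=
      ⟨⟨⟨u, hu⟩, 0, fun h => hu0 (congrArg Subtype.val h)⟩⟩
    exact (Module.finrank_pos).ne'
  exact h3

theorem KLG_line (P : Pt) (t k : ℕ) (H : Matrix (Fin t) (Fin t) ℤ) (B : Fin k → Fin t → Bool)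
    (h0 : crm P H B ≠ 0) (h1 : crm P H B ≤ 1) : ∃ u : Fin t → KP P, u ≠ 0 ∧
      ∀ u' ∈ EM (KP P) (lamP P) H B, u' ≠ 0 → ∀ b : Fin t → Bool, dotb b u' = 0 → dotb b u = 0 := by
  haveI := P.isMaximal
  letI : Field (KP P) := Ideal.Quotient.field P.asIdeal
  have h2 : Module.finrank (KP P) (EM (KP P) (lamP P) H B) = 1 := by
    have h3 : crm P H B = 1 := by omega
    exact h3
  haveI : Nontrivial (EM (KP P) (lamP P) H B) :=
    Module.nontrivial_of_finrank_pos (R := KP P) (by rw [h2]; exact one_pos)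
  obtain ⟨u, hu⟩ := exists_ne (0 : EM (KP P) (lamP P) H B)
  refine ⟨u.1, fun h => hu (Subtype.ext h), ?_⟩
  intro u' hu' hu0' b hb
  have h4 : (⟨u', hu'⟩ : EM (KP P) (lamP P) H B) ≠ 0 :=
    fun h => hu0' (congrArg Subtype.val h)
  obtain ⟨c, hc⟩ := (finrank_eq_one_iff_of_nonzero' _ h4).mp h2 u
  have h5 : u.1 = c • u' := (congrArg Subtype.val hc).symm
  rw [h5, KLG_smul, hb, mul_zero]

theorem KLG_ort (h1 : ORT_stmt) (P : Pt) (t k : ℕ) (u : Fin t → KP P) (hu : u ≠ 0) :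
    Set.ncard {W : Fin k → Fin t → Bool | ∀ i, dotb (W i) u = 0} * 2 ^ k ≤ 2 ^ (t * k) := by
  haveI := P.isMaximal
  letI : Field (KP P) := Ideal.Quotient.field P.asIdeal
  exact h1 (KP P) t k u hu

theorem KLG (h1 : ORT_stmt) : KLG_stmt := by
  classical
  intro t k k' M H B Q hQ hM
  have hfin : Set.Finite {P : Pt | Q P ∧ crm P H B ≠ 0} := by
    by_contra hinf
    obtain ⟨s, hs, hcard⟩ := Set.Infinite.exists_subset_card_eq
      (s := {P : Pt | Q P ∧ crm P H B ≠ 0}) hinf (M + 1)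
    have := hM s (fun P hP => hs hP)
    omega
  obtain ⟨F, hF⟩ := hfin.exists_finset_coe
  have hFm : ∀ P, P ∈ F ↔ (Q P ∧ crm P H B ≠ 0) := by
    intro P
    rw [← Finset.mem_coe, hF]
    rfl
  have hFc : F.card ≤ M := hM F (fun P hP => (hFm P).1 hP)
  have hex : ∀ P : Pt, ∃ u : Fin t → KP P, P ∈ F → (u ≠ 0 ∧
      ∀ u' ∈ EM (KP P) (lamP P) H B, u' ≠ 0 → ∀ b : Fin t → Bool, dotb b u' = 0 → dotb b u = 0) := by
    intro P
    by_cases hP : P ∈ F
    · obtain ⟨hq, hc⟩ := (hFm P).1 hP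
      obtain ⟨u, hu⟩ := KLG_line P t k H B hc (hQ P hq)
      exact ⟨u, fun _ => hu⟩
    · exact ⟨0, fun h => absurd h hP⟩
  choose u hu using hex
  have hcov : {W : Fin k' → Fin t → Bool | ∃ P, Q P ∧ ∃ u ∈ EM (KP P) (lamP P) H B, u ≠ 0 ∧
      ∀ i, dotb (W i) u = 0} ⊆ ⋃ P ∈ F, {W : Fin k' → Fin t → Bool | ∀ i, dotb (W i) (u P) = 0} := by
    rintro W ⟨P, hq, u', hu', hu0', hW⟩
    have hPF : P ∈ F := (hFm P).2 ⟨hq, KLG_pos P t k H B u' hu' hu0'⟩
    rw [Set.mem_iUnion₂]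
    exact ⟨P, hPF, fun i => (hu P hPF).2 u' hu' hu0' (W i) (hW i)⟩
  have hcard := (Set.ncard_le_ncard hcov (Set.toFinite _)).trans
    (Finset.set_ncard_biUnion_le F _)
  calc _ ≤ (∑ P ∈ F, Set.ncard {W : Fin k' → Fin t → Bool | ∀ i, dotb (W i) (u P) = 0}) * 2 ^ k' :=
        Nat.mul_le_mul_right _ hcard
    _ = ∑ P ∈ F, Set.ncard {W : Fin k' → Fin t → Bool | ∀ i, dotb (W i) (u P) = 0} * 2 ^ k' :=
        Finset.sum_mul _ _ _
    _ ≤ ∑ P ∈ F, 2 ^ (t * k') :=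
        Finset.sum_le_sum fun P hP => KLG_ort h1 P t k' (u P) (hu P hP).1
    _ = F.card * 2 ^ (t * k') := by rw [Finset.sum_const, smul_eq_mul]
    _ ≤ M * 2 ^ (t * k') := Nat.mul_le_mul_right _ hFc

end Pool.Agent.FS
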